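import Mathlib
import Pool.Agent.V1190.Nag.Spiral

set_option autoImplicit false

open MeasureTheory Set Metric Filter
open scoped ENNReal NNReal ContDiff Topology

/-!
A quasiregular map of a domain of `ℝ³` for which the image of the branch set has Nagata dimension
at least `2 = n - 1`.
-/

namespace Pool.Agent.Results.MP_00e59b_an.SpiralBranch

open Pool.Agent.V1190.Nag

/-- a domain: a nonempty connected open set -/
def IsDom {n : ℕ} (Ω : Set (Eu n)) : Prop := IsOpen Ω ∧ IsConnected Ω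

/-- quasiregular maps on `Ω`: continuous, in `W^{1,n}_loc`, with `|Df|ⁿ ≤ K J_f` a.e. -/
def IsQuasiregular {n : ℕ} (Ω : Set (Eu n)) (f : Eu n → Eu n) : Prop :=
  ContinuousOn f Ω ∧ BoundedDistortion Ω f

/-- the branch set: the points of `Ω` at which `f` is not a local homeomorphism -/
def branchSet {n : ℕ} (Ω : Set (Eu n)) (f : Eu n → Eu n) : Set (Eu n) :=
  {x | x ∈ Ω ∧ ¬ ∃ e : OpenPartialHomeomorph (Eu n) (Eu n),
    x ∈ e.source ∧ e.source ⊆ Ω ∧ EqOn f e e.source}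

/-- the planar doubling map `z ↦ z² / |z|` -/
noncomputable def Wc (z : ℂ) : ℂ := z * z / (‖z‖ : ℂ)

lemma Wc_lip (z w : ℂ) : ‖Wc z - Wc w‖ ≤ 3 * ‖z - w‖ := by
  rcases eq_or_ne z 0 with hz | hz
  · subst hz
    simp only [Wc, zero_mul, zero_div, zero_sub, norm_neg]
    rcases eq_or_ne w 0 with hw | hw
    · simp [hw]
    · rw [norm_div, norm_mul, Complex.norm_real, norm_norm]
      have : 0 < ‖w‖ := norm_pos_iff.2 hw
      rw [mul_div_assoc, div_self this.ne', mul_one]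
      linarith
  rcases eq_or_ne w 0 with hw | hw
  · subst hw
    simp only [Wc, zero_mul, zero_div, sub_zero]
    rw [norm_div, norm_mul, Complex.norm_real, norm_norm]
    have : 0 < ‖z‖ := norm_pos_iff.2 hz
    rw [mul_div_assoc, div_self this.ne', mul_one]
    linarith
  have hz' : 0 < ‖z‖ := norm_pos_iff.2 hz
  have hw' : 0 < ‖w‖ := norm_pos_iff.2 hw
  have hzc : (‖z‖ : ℂ) ≠ 0 := by exact_mod_cast hz'.ne'
  have hwc : (‖w‖ : ℂ) ≠ 0 := by exact_mod_cast hw'.ne'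
  have e : Wc z - Wc w = (z - w) * (z / ‖z‖) + (w / ‖w‖) * ((z * ‖w‖ - w * ‖z‖) / ‖z‖) := by
    unfold Wc; field_simp; ring
  have n1 : ‖z / (‖z‖ : ℂ)‖ = 1 := by
    rw [norm_div, Complex.norm_real, norm_norm, div_self hz'.ne']
  have n2 : ‖w / (‖w‖ : ℂ)‖ = 1 := by
    rw [norm_div, Complex.norm_real, norm_norm, div_self hw'.ne']
  have n3 : ‖(z * ‖w‖ - w * ‖z‖) / (‖z‖ : ℂ)‖ ≤ 2 * ‖z - w‖ := by
    rw [norm_div, Complex.norm_real, norm_norm, div_le_iff₀ hz']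
    have e2 : z * (‖w‖ : ℂ) - w * ‖z‖ = z * ((‖w‖ : ℂ) - ‖z‖) + (z - w) * ‖z‖ := by ring
    rw [e2]
    refine (norm_add_le _ _).trans ?_
    rw [norm_mul, norm_mul, Complex.norm_real, norm_norm, ← Complex.ofReal_sub, Complex.norm_real,
      Real.norm_eq_abs]
    have := abs_norm_sub_norm_le w z
    rw [norm_sub_rev w z] at this
    nlinarith
  rw [e]
  refine (norm_add_le _ _).trans ?_
  rw [norm_mul, norm_mul, n1, n2]
  linarith

/-- the winding map around the axis `x₁ = x₂ = 0` -/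
noncomputable def W (x : Eu 3) : Eu 3 :=
  WithLp.toLp 2 (fun i => if i = 0 then x 0 else if i = 1 then
    (x 1 ^ 2 - x 2 ^ 2) / √(x 1 ^ 2 + x 2 ^ 2) else 2 * x 1 * x 2 / √(x 1 ^ 2 + x 2 ^ 2))

lemma norm_mk (a b : ℝ) : ‖(⟨a, b⟩ : ℂ)‖ = √(a ^ 2 + b ^ 2) := by
  rw [Complex.norm_def, Complex.normSq_apply]; simp [sq]

lemma Wc_mk (a b : ℝ) : Wc ⟨a, b⟩ = ⟨(a ^ 2 - b ^ 2) / √(a ^ 2 + b ^ 2), 2 * a * b / √(a ^ 2 + b ^ 2)⟩ := by
  unfold Wc
  rw [norm_mk]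
  apply Complex.ext
  · rw [Complex.div_ofReal_re]; simp; ring
  · rw [Complex.div_ofReal_im]; simp; ring

lemma W0 (x : Eu 3) : W x 0 = x 0 := by simp [W]
lemma W1 (x : Eu 3) : W x 1 = (x 1 ^ 2 - x 2 ^ 2) / √(x 1 ^ 2 + x 2 ^ 2) := by simp [W]
lemma W2 (x : Eu 3) : W x 2 = 2 * x 1 * x 2 / √(x 1 ^ 2 + x 2 ^ 2) := by simp [W]

lemma lipschitz_W : LipschitzWith 3 W := by
  apply LipschitzWith.of_dist_le_mul
  intro x y
  rw [dist_eq_norm, dist_eq_norm, ← abs_of_nonneg (norm_nonneg (W x - W y)),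
    ← abs_of_nonneg (by positivity : (0 : ℝ) ≤ ((3 : ℝ≥0) : ℝ) * ‖x - y‖), ← sq_le_sq, mul_pow,
    EuclideanSpace.real_norm_sq_eq, EuclideanSpace.real_norm_sq_eq, Fin.sum_univ_three,
    Fin.sum_univ_three]
  simp only [PiLp.sub_apply]
  rw [W0, W0, W1, W1, W2, W2]
  have h := Wc_lip ⟨x 1, x 2⟩ ⟨y 1, y 2⟩
  rw [Wc_mk, Wc_mk] at h
  have h2 : ‖(⟨(x 1 ^ 2 - x 2 ^ 2) / √(x 1 ^ 2 + x 2 ^ 2), 2 * x 1 * x 2 / √(x 1 ^ 2 + x 2 ^ 2)⟩ : ℂ) -
      ⟨(y 1 ^ 2 - y 2 ^ 2) / √(y 1 ^ 2 + y 2 ^ 2), 2 * y 1 * y 2 / √(y 1 ^ 2 + y 2 ^ 2)⟩‖ ^ 2 ≤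
      (3 * ‖(⟨x 1, x 2⟩ : ℂ) - ⟨y 1, y 2⟩‖) ^ 2 := by gcongr
  rw [mul_pow, Complex.sq_norm, Complex.sq_norm, Complex.normSq_apply, Complex.normSq_apply] at h2
  simp only [Complex.sub_re, Complex.sub_im] at h2
  have h3 : ((3 : ℝ≥0) : ℝ) = 3 := rfl
  rw [h3]
  nlinarith [sq_nonneg (x 0 - y 0)]

/-- derivative of `W` off the axis -/
noncomputable def DW (x : Eu 3) : Eu 3 →L[ℝ] Eu 3 :=
  ((EuclideanSpace.equiv (Fin 3) ℝ).symm : (Fin 3 → ℝ) →L[ℝ] Eu 3).comp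
  (ContinuousLinearMap.pi (fun i : Fin 3 => if i = 0 then (EuclideanSpace.proj 0 : Eu 3 →L[ℝ] ℝ)
    else if i = 1 then
      (x 1 * (x 1 ^ 2 + 3 * x 2 ^ 2) / √(x 1 ^ 2 + x 2 ^ 2) ^ 3) • (EuclideanSpace.proj 1 : Eu 3 →L[ℝ] ℝ) -
      (x 2 * (3 * x 1 ^ 2 + x 2 ^ 2) / √(x 1 ^ 2 + x 2 ^ 2) ^ 3) • (EuclideanSpace.proj 2 : Eu 3 →L[ℝ] ℝ)
    else
      (2 * x 2 ^ 3 / √(x 1 ^ 2 + x 2 ^ 2) ^ 3) • (EuclideanSpace.proj 1 : Eu 3 →L[ℝ] ℝ) +
      (2 * x 1 ^ 3 / √(x 1 ^ 2 + x 2 ^ 2) ^ 3) • (EuclideanSpace.proj 2 : Eu 3 →L[ℝ] ℝ)))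

lemma DW0 (x v : Eu 3) : DW x v 0 = v 0 := by simp [DW]
lemma DW1 (x v : Eu 3) : DW x v 1 = (x 1 * (x 1 ^ 2 + 3 * x 2 ^ 2) / √(x 1 ^ 2 + x 2 ^ 2) ^ 3) * v 1 -
    (x 2 * (3 * x 1 ^ 2 + x 2 ^ 2) / √(x 1 ^ 2 + x 2 ^ 2) ^ 3) * v 2 := by simp [DW]
lemma DW2 (x v : Eu 3) : DW x v 2 = (2 * x 2 ^ 3 / √(x 1 ^ 2 + x 2 ^ 2) ^ 3) * v 1 +
    (2 * x 1 ^ 3 / √(x 1 ^ 2 + x 2 ^ 2) ^ 3) * v 2 := by simp [DW]

lemma hasFDerivAt_W {x : Eu 3} (hx : x 1 ≠ 0) : HasFDerivAt W (DW x) x := by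
  have hp : ∀ i : Fin 3, HasFDerivAt (fun y : Eu 3 => y i) (EuclideanSpace.proj i : Eu 3 →L[ℝ] ℝ) x :=
    fun i => (EuclideanSpace.proj i : Eu 3 →L[ℝ] ℝ).hasFDerivAt
  have hpos : 0 < x 1 ^ 2 + x 2 ^ 2 := by positivity
  have hr0 : √(x 1 ^ 2 + x 2 ^ 2) ≠ 0 := (Real.sqrt_pos.2 hpos).ne'
  have hrsq : √(x 1 ^ 2 + x 2 ^ 2) ^ 2 = x 1 ^ 2 + x 2 ^ 2 := Real.sq_sqrt hpos.le
  have hr : HasFDerivAt (fun y : Eu 3 => √(y 1 ^ 2 + y 2 ^ 2)) _ x :=
    (((hp 1).pow 2).add ((hp 2).pow 2)).sqrt hpos.ne'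
  have hri : HasFDerivAt (fun y : Eu 3 => (√(y 1 ^ 2 + y 2 ^ 2))⁻¹) _ x :=
    (hasDerivAt_inv hr0).comp_hasFDerivAt x hr
  have hn1 : HasFDerivAt (fun y : Eu 3 => y 1 ^ 2 - y 2 ^ 2) _ x := ((hp 1).pow 2).sub ((hp 2).pow 2)
  have hn2 : HasFDerivAt (fun y : Eu 3 => 2 * y 1 * y 2) _ x := ((hp 1).const_mul 2).mul (hp 2)
  rw [← hasFDerivWithinAt_univ, hasFDerivWithinAt_euclidean]
  intro i
  rw [hasFDerivWithinAt_univ]
  fin_cases i
  · have e : (fun y : Eu 3 => W y 0) = fun y => y 0 := by funext y; exact W0 y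
    change HasFDerivAt (fun y : Eu 3 => W y 0) _ x
    rw [e]
    refine (hp 0).congr_fderiv ?_
    ext v
    simp [DW]
  · have e : (fun y : Eu 3 => W y 1) = fun y => (y 1 ^ 2 - y 2 ^ 2) * (√(y 1 ^ 2 + y 2 ^ 2))⁻¹ := by
      funext y; rw [W1, div_eq_mul_inv]
    change HasFDerivAt (fun y : Eu 3 => W y 1) _ x
    rw [e]
    refine (hn1.mul hri).congr_fderiv ?_
    ext v
    simp [DW]
    set r := √(x 1 ^ 2 + x 2 ^ 2)
    field_simp
    rw [hrsq]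
    ring
  · have e : (fun y : Eu 3 => W y 2) = fun y => (2 * y 1 * y 2) * (√(y 1 ^ 2 + y 2 ^ 2))⁻¹ := by
      funext y; rw [W2, div_eq_mul_inv]
    change HasFDerivAt (fun y : Eu 3 => W y 2) _ x
    rw [e]
    refine (hn2.mul hri).congr_fderiv ?_
    ext v
    simp [DW]
    set r := √(x 1 ^ 2 + x 2 ^ 2)
    field_simp
    rw [hrsq]
    ring

lemma det_DW {x : Eu 3} (hx : x 1 ≠ 0) : (DW x).det = 2 := by
  have hpos : 0 < x 1 ^ 2 + x 2 ^ 2 := by positivity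
  have hr0 : √(x 1 ^ 2 + x 2 ^ 2) ≠ 0 := (Real.sqrt_pos.2 hpos).ne'
  have hrsq : √(x 1 ^ 2 + x 2 ^ 2) ^ 2 = x 1 ^ 2 + x 2 ^ 2 := Real.sq_sqrt hpos.le
  rw [ContinuousLinearMap.det, ← LinearMap.det_toMatrix (EuclideanSpace.basisFun (Fin 3) ℝ).toBasis,
    Matrix.det_fin_three]
  simp only [LinearMap.toMatrix_apply, OrthonormalBasis.coe_toBasis, OrthonormalBasis.coe_toBasis_repr_apply,
      EuclideanSpace.basisFun_repr, EuclideanSpace.basisFun_apply, ContinuousLinearMap.coe_coe]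
  rw [DW0, DW0, DW0, DW1, DW1, DW1, DW2, DW2, DW2]
  simp
  set r := √(x 1 ^ 2 + x 2 ^ 2)
  have h6 : r ^ 6 = (x 1 ^ 2 + x 2 ^ 2) ^ 3 := by rw [← hrsq]; ring
  field_simp
  rw [h6]
  ring

/-- the quasiregular map -/
noncomputable def F (x : Eu 3) : Eu 3 := G (m := 1) (W x)

/-- the tube -/
def Om : Set (Eu 3) := {x | 1 / 2 < x 0 ∧ x 1 ^ 2 + x 2 ^ 2 < 1 / 4}

lemma isOpen_Om : IsOpen Om := by
  have h0 : Continuous (fun x : Eu 3 => x 0) := by fun_prop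
  have h1 : Continuous (fun x : Eu 3 => x 1 ^ 2 + x 2 ^ 2) := by fun_prop
  exact (isOpen_lt continuous_const h0).inter (isOpen_lt h1 continuous_const)

lemma convex_Om : Convex ℝ Om := by
  intro x hx y hy a b ha hb hab
  refine ⟨?_, ?_⟩
  · simp only [PiLp.add_apply, PiLp.smul_apply, smul_eq_mul]
    rcases eq_or_lt_of_le ha with h | h
    · have : b = 1 := by linarith
      rw [← h, this]; simpa using hy.1
    · nlinarith [hx.1, hy.1]
  · simp only [PiLp.add_apply, PiLp.smul_apply, smul_eq_mul]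
    have h1 : (a * x 1 + b * y 1) ^ 2 ≤ a * x 1 ^ 2 + b * y 1 ^ 2 := by
      have : b = 1 - a := by linarith
      subst this
      nlinarith [mul_nonneg (mul_nonneg ha hb) (sq_nonneg (x 1 - y 1))]
    have h2 : (a * x 2 + b * y 2) ^ 2 ≤ a * x 2 ^ 2 + b * y 2 ^ 2 := by
      have : b = 1 - a := by linarith
      subst this
      nlinarith [mul_nonneg (mul_nonneg ha hb) (sq_nonneg (x 2 - y 2))]
    rcases eq_or_lt_of_le ha with h | h
    · have : b = 1 := by linarith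
      rw [← h, this]; simpa using hy.2
    · nlinarith [hx.2, hy.2]

lemma W_mem {x : Eu 3} (hx : x ∈ Om) : 1 / 2 < W x 0 ∧ |W x 1| ≤ 1 / 2 := by
  refine ⟨by rw [W0]; exact hx.1, ?_⟩
  have h := Wc_lip ⟨x 1, x 2⟩ 0
  have hn : ‖Wc ⟨x 1, x 2⟩‖ ≤ 1 / 2 := by
    have h4 : √(x 1 ^ 2 + x 2 ^ 2) ≤ 1 / 2 := by
      rw [Real.sqrt_le_left (by norm_num)]
      have := hx.2; norm_num; linarith
    unfold Wc
    rw [norm_div, norm_mul, Complex.norm_real, norm_norm, norm_mk]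
    rcases eq_or_ne (√(x 1 ^ 2 + x 2 ^ 2)) 0 with h0 | h0
    · rw [h0]; norm_num
    · rw [mul_div_assoc, div_self h0, mul_one]; exact h4
  have := (Complex.abs_re_le_norm (Wc ⟨x 1, x 2⟩)).trans hn
  rw [Wc_mk] at this
  rw [W1]
  exact this

lemma locallyLipschitz_F : LocallyLipschitz F :=
  locallyLipschitz_G.comp lipschitz_W.locallyLipschitz

lemma ae_ne : ∀ᵐ x : Eu 3, x 1 ≠ 0 := by
  let s : Submodule ℝ (Eu 3) := LinearMap.ker ((EuclideanSpace.proj 1 : Eu 3 →L[ℝ] ℝ) : Eu 3 →ₗ[ℝ] ℝ)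
  have hs : s ≠ ⊤ := by
    intro h
    have : (EuclideanSpace.single 1 1 : Eu 3) ∈ s := by rw [h]; trivial
    simp [s] at this
  have := Measure.addHaar_submodule (volume : Measure (Eu 3)) s hs
  rw [ae_iff]
  refine measure_mono_null ?_ this
  intro x hx
  simpa [s] using hx

lemma dist_ae : ∀ᵐ x ∂(volOn Om), opN (fderiv ℝ F x) ^ 3 ≤ 27 ^ 3 * detL (fderiv ℝ F x) := by
  unfold volOn opN detL
  filter_upwards [ae_restrict_mem isOpen_Om.measurableSet, ae_restrict_of_ae ae_ne] with x hx hx1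
  have hW := hasFDerivAt_W hx1
  have hm := W_mem hx
  have hG := (hasStrictFDerivAt_G (m := 1) hm.1).hasFDerivAt
  have hF : HasFDerivAt F ((DG (m := 1) (W x)).comp (DW x)) x := hG.comp x hW
  rw [hF.fderiv]
  have hdet : ((DG (m := 1) (W x)).comp (DW x)).det = (DG (m := 1) (W x)).det * 2 := by
    rw [← det_DW hx1]
    unfold ContinuousLinearMap.det
    rw [← LinearMap.det_comp]
    rfl
  have h1 : ‖DW x‖ ≤ 3 := by
    rw [← hW.fderiv]
    exact norm_fderiv_le_of_lipschitz ℝ lipschitz_W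
  have h2 : ‖DG (m := 1) (W x)‖ ≤ 3 := norm_DG_le hm.2
  have h3 : ‖(DG (m := 1) (W x)).comp (DW x)‖ ≤ 9 := by
    refine (ContinuousLinearMap.opNorm_comp_le _ _).trans ?_
    nlinarith [norm_nonneg (DW x), norm_nonneg (DG (m := 1) (W x))]
  have h4 : 1 / 2 ≤ (DG (m := 1) (W x)).det := by
    rw [det_DG]
    have h1 := one_le_th (W x 0)
    have h2 := abs_le.1 hm.2
    rw [le_div_iff₀ (by linarith)]
    linarith [h2.2]
  rw [hdet]
  calc ‖(DG (m := 1) (W x)).comp (DW x)‖ ^ 3 ≤ 9 ^ 3 := by gcongr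
    _ ≤ 27 ^ 3 * ((DG (m := 1) (W x)).det * 2) := by nlinarith

/-- every point of the axis is a branch point -/
lemma axis_branch {x : Eu 3} (hx : x ∈ Om) (h1 : x 1 = 0) (h2 : x 2 = 0) : x ∈ branchSet Om F := by
  refine ⟨hx, ?_⟩
  rintro ⟨e, hxe, _, he⟩
  obtain ⟨δ, hδ, hball⟩ := Metric.isOpen_iff.1 e.open_source x hxe
  let p : Eu 3 := x + EuclideanSpace.single 1 (δ / 2)
  let q : Eu 3 := x + EuclideanSpace.single 1 (-(δ / 2))
  have hp : p ∈ e.source := by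
    apply hball
    rw [mem_ball, dist_eq_norm]
    simp only [p, add_sub_cancel_left]
    rw [EuclideanSpace.norm_single, Real.norm_eq_abs, abs_of_pos (by positivity)]
    linarith
  have hq : q ∈ e.source := by
    apply hball
    rw [mem_ball, dist_eq_norm]
    simp only [q, add_sub_cancel_left]
    rw [EuclideanSpace.norm_single, Real.norm_eq_abs, abs_neg, abs_of_pos (by positivity)]
    linarith
  have hpq : F p = F q := by
    unfold F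
    congr 1
    ext i
    fin_cases i
    · change W p 0 = W q 0
      rw [W0, W0]; simp [p, q]
    · change W p 1 = W q 1
      rw [W1, W1]; simp [p, q, h1, h2]
    · change W p 2 = W q 2
      rw [W2, W2]; simp [p, q, h1, h2]
  rw [he hp, he hq] at hpq
  have := e.injOn hp hq hpq
  have h3 := congrArg (fun v : Eu 3 => v 1) this
  simp [p, q] at h3
  linarith

/-- **Disproof.** There are a domain `Ω ⊆ ℝⁿ`, `n = 3`, and a quasiregular map `f` on `Ω` such that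
the image of the branch set has Nagata dimension at least `n - 1`. -/
theorem result : ∃ (n : ℕ) (Ω : Set (Eu n)) (f : Eu n → Eu n), 3 ≤ n ∧ IsDom Ω ∧
    IsQuasiregular Ω f ∧ ((n - 1 : ℕ) : ℕ∞) ≤ nagataDim (f '' branchSet Ω f) := by
  refine ⟨3, Om, F, le_rfl, ⟨isOpen_Om, ⟨?_, convex_Om.isPreconnected⟩⟩, ⟨?_, ?_⟩, ?_⟩
  · refine ⟨EuclideanSpace.single 0 1, ?_, ?_⟩
    · norm_num
    · have h2 : (2 : Fin 3) ≠ 0 := by decide
      norm_num [h2]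
  · exact locallyLipschitz_F.continuous.continuousOn
  · exact ⟨fun x => fderiv ℝ F x, isW1n_of_locallyLipschitz _ locallyLipschitz_F, 27 ^ 3,
      by norm_num, dist_ae⟩
  · apply le_nagataDim
    intro d hd
    refine not_nagataLE_spiral (m := 1) (k := 0) (by norm_num) ?_ hd
    intro t ht z hz
    refine ⟨EuclideanSpace.single 0 (t ^ 2 / 2), axis_branch ⟨?_, ?_⟩ ?_ ?_, ?_⟩
    · simp; nlinarith
    · simp
    · simp
    · simp
    · ext i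
      fin_cases i
      · simp [F, G, W, th_of_sq ht.le]
      · simp [F, G, W, th_of_sq ht.le]
      · have := hz 2 le_rfl
        simp [F, G, W, this]

end Pool.Agent.Results.MP_00e59b_an.SpiralBranch
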